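import Pool.Agent.N520.RO.Stm4a

/-!
Project RO, second part, TR (helper499 for helper520): in a bounded group the distance from the identity
is controlled by the trace.
-/

set_option autoImplicit false

open Set Filter Topology Metric
open scoped RealInnerProductSpace

namespace Pool.Agent.N499.RO.TR

/-- orthogonal maps -/
theorem hs {V : Type} [NormedAddCommGroup V] [InnerProductSpace ℝ V] [FiniteDimensional ℝ V]
    (T : V →ₗ[ℝ] V) (hT : ∀ v w, ⟪T v, T w⟫ = ⟪v, w⟫) :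
    0 ≤ (Module.finrank ℝ V : ℝ) - LinearMap.trace ℝ V T ∧ ∀ v : V, ‖T v - v‖ ^ 2 ≤
      ‖v‖ ^ 2 * (2 * ((Module.finrank ℝ V : ℝ) - LinearMap.trace ℝ V T)) := by
  set b := stdOrthonormalBasis ℝ V with hb
  have h1 : ∑ i, ‖T (b i) - b i‖ ^ 2 =
      2 * ((Module.finrank ℝ V : ℝ) - LinearMap.trace ℝ V T) := by
    have h2 : ∀ i, ‖T (b i) - b i‖ ^ 2 = 2 - 2 * ⟪b i, T (b i)⟫ := by
      intro i
      rw [← real_inner_self_eq_norm_sq, inner_sub_left, inner_sub_right, inner_sub_right, hT,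
        real_inner_comm (T (b i)) (b i), real_inner_self_eq_norm_sq, b.norm_eq_one]
      ring
    simp only [h2]
    rw [Finset.sum_sub_distrib, ← Finset.mul_sum, LinearMap.trace_eq_sum_inner T b]
    simp
    ring
  have h0 : 0 ≤ 2 * ((Module.finrank ℝ V : ℝ) - LinearMap.trace ℝ V T) := by
    rw [← h1]
    positivity
  refine ⟨by linarith, fun v => ?_⟩
  have h3 : T v - v = ∑ i, ⟪b i, v⟫ • (T (b i) - b i) := by
    conv_lhs => rw [← b.sum_repr' v]
    rw [map_sum, ← Finset.sum_sub_distrib]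
    refine Finset.sum_congr rfl fun i _ => ?_
    rw [map_smul, smul_sub]
  have h4 : ‖T v - v‖ ≤ ∑ i, |⟪b i, v⟫| * ‖T (b i) - b i‖ := by
    rw [h3]
    refine (norm_sum_le _ _).trans (Finset.sum_le_sum fun i _ => ?_)
    rw [norm_smul, Real.norm_eq_abs]
  have h5 : ∑ i, |⟪b i, v⟫| ^ 2 = ‖v‖ ^ 2 := by
    have := b.sum_sq_norm_inner_right v
    simpa [Real.norm_eq_abs] using this
  calc ‖T v - v‖ ^ 2 ≤ (∑ i, |⟪b i, v⟫| * ‖T (b i) - b i‖) ^ 2 := by gcongr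
    _ ≤ (∑ i, |⟪b i, v⟫| ^ 2) * ∑ i, ‖T (b i) - b i‖ ^ 2 :=
        Finset.sum_mul_sq_le_sq_mul_sq _ _ _
    _ = _ := by rw [h5, h1]

/-- the same for a positive definite form -/
theorem hs2 {V : Type} [AddCommGroup V] [Module ℝ V] [FiniteDimensional ℝ V] (β : V → V → ℝ)
    (symm : ∀ v w, β v w = β w v) (pos : ∀ v, v ≠ 0 → 0 < β v v)
    (add : ∀ u v w, β (u + v) w = β u w + β v w) (smul : ∀ (a : ℝ) v w, β (a • v) w = a * β v w)
    (T : V →ₗ[ℝ] V) (hT : ∀ v w, β (T v) (T w) = β v w) :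
    0 ≤ (Module.finrank ℝ V : ℝ) - LinearMap.trace ℝ V T ∧ ∀ v : V, β (T v - v) (T v - v) ≤
      β v v * (2 * ((Module.finrank ℝ V : ℝ) - LinearMap.trace ℝ V T)) := by
  let cd : InnerProductSpace.Core ℝ V :=
    { inner := β
      conj_inner_symm := fun x y => symm y x
      re_inner_nonneg := fun x => by
        rcases eq_or_ne x 0 with rfl | h
        · have h1 := smul 0 0 (0 : V)
          rw [zero_smul, zero_mul] at h1
          exact h1.ge
        · exact (pos x h).le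
      add_left := add
      smul_left := fun x y r => smul r x y
      definite := fun x h => by
        by_contra h1
        exact (pos x h1).ne' h }
  let : NormedAddCommGroup V := cd.toNormedAddCommGroup
  let : InnerProductSpace ℝ V := InnerProductSpace.ofCore cd.toCore
  obtain ⟨h1, h2⟩ := hs T (fun v w => hT v w)
  refine ⟨h1, fun v => ?_⟩
  have h3 := h2 v
  rw [← real_inner_self_eq_norm_sq, ← real_inner_self_eq_norm_sq] at h3
  exact h3

/-- limits of bounded sequences along the ultrafilter -/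
theorem exists_lim {f : ℕ → ℝ} {M : ℝ} (h : ∀ n, |f n| ≤ M) :
    ∃ x, Tendsto f (hyperfilter ℕ : Filter ℕ) (𝓝 x) := by
  have h1 : (((hyperfilter ℕ).map f : Ultrafilter ℝ) : Filter ℝ) ≤ 𝓟 (Icc (-M) M) := by
    rw [le_principal_iff]
    change f ⁻¹' (Icc (-M) M) ∈ (hyperfilter ℕ : Filter ℕ)
    have : f ⁻¹' (Icc (-M) M) = univ := by
      ext n
      simp only [mem_preimage, mem_Icc, mem_univ, iff_true]
      exact abs_le.1 (h n)
    rw [this]
    exact univ_mem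
  obtain ⟨x, -, hx⟩ := isCompact_Icc.ultrafilter_le_nhds _ h1
  exact ⟨x, hx⟩

section
variable {V W : Type} [NormedAddCommGroup V] [NormedSpace ℝ V] [NormedAddCommGroup W]
  [InnerProductSpace ℝ W] {e : V →ₗ[ℝ] W} {B : ℕ → V →ₗ[ℝ] V} {T : V →ₗ[ℝ] V} {M : ℝ}

/-- averages -/
noncomputable def av (e : V →ₗ[ℝ] W) (B : ℕ → V →ₗ[ℝ] V) (n : ℕ) (v w : V) : ℝ :=
  (∑ k ∈ Finset.range (n + 1), ⟪e (B k v), e (B k w)⟫) / ((n : ℝ) + 1)

theorem term_le (hM : 0 ≤ M) (h1 : ∀ n v, ‖e (B n v)‖ ≤ M * ‖v‖) (k : ℕ) (v w : V) :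
    |⟪e (B k v), e (B k w)⟫| ≤ M ^ 2 * ‖v‖ * ‖w‖ := by
  refine (abs_real_inner_le_norm _ _).trans ?_
  calc ‖e (B k v)‖ * ‖e (B k w)‖ ≤ (M * ‖v‖) * (M * ‖w‖) :=
        mul_le_mul (h1 k v) (h1 k w) (norm_nonneg _) (by positivity)
    _ = _ := by ring

theorem av_le (hM : 0 ≤ M) (h1 : ∀ n v, ‖e (B n v)‖ ≤ M * ‖v‖) (n : ℕ) (v w : V) :
    |av e B n v w| ≤ M ^ 2 * ‖v‖ * ‖w‖ := by
  have hn : (0 : ℝ) < (n : ℝ) + 1 := by positivity
  unfold av
  rw [abs_div, abs_of_pos hn, div_le_iff₀ hn]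
  refine (Finset.abs_sum_le_sum_abs _ _).trans ?_
  refine (Finset.sum_le_sum fun k _ => term_le hM h1 k v w).trans (le_of_eq ?_)
  rw [Finset.sum_const, Finset.card_range, nsmul_eq_mul]
  push_cast
  ring

/-- an invariant form -/
theorem exists_form (hM : 0 ≤ M) (hB : ∀ n v, B (n + 1) v = B n (T v))
    (h1 : ∀ n v, ‖e (B n v)‖ ≤ M * ‖v‖) (h2 : ∀ n v, ‖v‖ ≤ M * ‖e (B n v)‖) :
    ∃ β : V → V → ℝ, (∀ v w, β v w = β w v) ∧ (∀ u v w, β (u + v) w = β u w + β v w) ∧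
      (∀ (a : ℝ) v w, β (a • v) w = a * β v w) ∧ (∀ v w, β (T v) (T w) = β v w) ∧
      (∀ v, ‖v‖ ^ 2 ≤ M ^ 2 * β v v) ∧ ∀ v, β v v ≤ M ^ 2 * ‖v‖ ^ 2 := by
  choose β hβ using fun v w => exists_lim (fun n => av_le (B := B) hM h1 n v w)
  refine ⟨β, ?_, ?_, ?_, ?_, ?_, ?_⟩
  · intro v w
    refine tendsto_nhds_unique (hβ v w) ((hβ w v).congr fun n => ?_)
    unfold av
    congr 1
    exact Finset.sum_congr rfl fun k _ => real_inner_comm _ _
  · intro u v w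
    refine tendsto_nhds_unique (hβ (u + v) w) (((hβ u w).add (hβ v w)).congr fun n => ?_)
    unfold av
    rw [← add_div, ← Finset.sum_add_distrib]
    congr 1
    refine Finset.sum_congr rfl fun k _ => ?_
    rw [map_add, map_add, inner_add_left]
  · intro a v w
    refine tendsto_nhds_unique (hβ (a • v) w) (((hβ v w).const_mul a).congr fun n => ?_)
    unfold av
    rw [← mul_div_assoc, Finset.mul_sum]
    congr 1
    refine Finset.sum_congr rfl fun k _ => ?_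
    rw [map_smul, map_smul, real_inner_smul_left]
  · intro v w
    have h3 : Tendsto (fun n : ℕ => (⟪e (B (n + 1) v), e (B (n + 1) w)⟫ -
        ⟪e (B 0 v), e (B 0 w)⟫) / ((n : ℝ) + 1)) (hyperfilter ℕ : Filter ℕ) (𝓝 0) := by
      have h4 : Tendsto (fun n : ℕ => (2 * (M ^ 2 * ‖v‖ * ‖w‖)) * (1 / ((n : ℝ) + 1))) atTop
          (𝓝 0) := by
        have := (tendsto_one_div_add_atTop_nhds_zero_nat (𝕜 := ℝ)).const_mul
          (2 * (M ^ 2 * ‖v‖ * ‖w‖))
        rwa [mul_zero] at this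
      refine squeeze_zero_norm (fun n => ?_) (h4.mono_left Nat.hyperfilter_le_atTop)
      have hn : (0 : ℝ) < (n : ℝ) + 1 := by positivity
      rw [Real.norm_eq_abs, abs_div, abs_of_pos hn, mul_one_div]
      apply div_le_div_of_nonneg_right _ hn.le
      refine (abs_sub _ _).trans ?_
      have h5 := term_le (B := B) hM h1 (n + 1) v w
      have h6 := term_le (B := B) hM h1 0 v w
      linarith
    refine tendsto_nhds_unique (hβ (T v) (T w)) ?_
    have h4 := (hβ v w).add h3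
    rw [add_zero] at h4
    refine h4.congr fun n => ?_
    unfold av
    rw [← add_div]
    congr 1
    have h5 : ∑ k ∈ Finset.range (n + 1), ⟪e (B k (T v)), e (B k (T w))⟫ =
        ∑ k ∈ Finset.range (n + 1), ⟪e (B (k + 1) v), e (B (k + 1) w)⟫ :=
      Finset.sum_congr rfl fun k _ => by rw [hB, hB]
    rw [h5]
    have h6 := Finset.sum_range_succ (fun k => ⟪e (B k v), e (B k w)⟫) (n + 1)
    have h7 := Finset.sum_range_succ' (fun k => ⟪e (B k v), e (B k w)⟫) (n + 1)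
    rw [h7] at h6
    linarith
  · intro v
    refine ge_of_tendsto' ((hβ v v).const_mul (M ^ 2)) fun n => ?_
    have hn : (0 : ℝ) < (n : ℝ) + 1 := by positivity
    unfold av
    rw [← mul_div_assoc, le_div_iff₀ hn, Finset.mul_sum]
    have h3 : ‖v‖ ^ 2 * ((n : ℝ) + 1) = ∑ _k ∈ Finset.range (n + 1), ‖v‖ ^ 2 := by
      rw [Finset.sum_const, Finset.card_range, nsmul_eq_mul]
      push_cast
      ring
    rw [h3]
    refine Finset.sum_le_sum fun k _ => ?_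
    rw [real_inner_self_eq_norm_sq, ← mul_pow]
    exact pow_le_pow_left₀ (norm_nonneg _) (h2 k v) 2
  · intro v
    refine le_of_tendsto' (hβ v v) fun n => ?_
    refine (le_abs_self _).trans ((av_le hM h1 n v v).trans (le_of_eq ?_))
    ring

end

theorem t_tr : Pool.Agent.N520.RO.S_TR := by
  intro V _ _ _ D _ A C hA
  let e : V ≃L[ℝ] EuclideanSpace ℝ (Fin (Module.finrank ℝ V)) := toEuclidean
  obtain ⟨M, hM0, hM1, hM2⟩ : ∃ M : ℝ, 0 ≤ M ∧
      ‖(e : V →L[ℝ] EuclideanSpace ℝ (Fin (Module.finrank ℝ V)))‖ * |C| ≤ M ∧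
      |C| * ‖(e.symm : EuclideanSpace ℝ (Fin (Module.finrank ℝ V)) →L[ℝ] V)‖ ≤ M :=
    ⟨max (‖(e : V →L[ℝ] EuclideanSpace ℝ (Fin (Module.finrank ℝ V)))‖ * |C|)
      (|C| * ‖(e.symm : EuclideanSpace ℝ (Fin (Module.finrank ℝ V)) →L[ℝ] V)‖),
      le_max_of_le_left (by positivity), le_max_left _ _, le_max_right _ _⟩
  refine ⟨M ^ 2 * M ^ 2 * 2, fun l => ?_⟩
  have hbd : ∀ (x : D) (v : V), ‖(A x : V →L[ℝ] V) v‖ ≤ |C| * ‖v‖ := by
    intro x v
    refine ((A x : V →L[ℝ] V).le_opNorm v).trans ?_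
    exact mul_le_mul_of_nonneg_right ((hA x).trans (le_abs_self C)) (norm_nonneg _)
  have hinv : ∀ (x : D) (v : V), (A x⁻¹ : V →L[ℝ] V) ((A x : V →L[ℝ] V) v) = v := by
    intro x v
    have h1 : (A x⁻¹ : V →L[ℝ] V) * (A x : V →L[ℝ] V) = 1 := by
      rw [← Units.val_mul, ← map_mul, inv_mul_cancel, map_one, Units.val_one]
    exact congrArg (fun L : V →L[ℝ] V => L v) h1
  obtain ⟨β, b1, b2, b3, b4, b5, b6⟩ := exists_form
    (e := (e : V →ₗ[ℝ] EuclideanSpace ℝ (Fin (Module.finrank ℝ V))))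
    (B := fun n => ((A (l ^ n) : V →L[ℝ] V) : V →ₗ[ℝ] V))
    (T := ((A l : V →L[ℝ] V) : V →ₗ[ℝ] V)) (M := M) hM0 (fun n v => by
      change (A (l ^ (n + 1)) : V →L[ℝ] V) v = (A (l ^ n) : V →L[ℝ] V) ((A l : V →L[ℝ] V) v)
      rw [pow_succ, map_mul, Units.val_mul]
      rfl) (fun n v => by
      change ‖(e : V →L[ℝ] EuclideanSpace ℝ (Fin (Module.finrank ℝ V)))
        ((A (l ^ n) : V →L[ℝ] V) v)‖ ≤ M * ‖v‖
      refine (ContinuousLinearMap.le_opNorm _ _).trans ?_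
      refine (mul_le_mul_of_nonneg_left (hbd (l ^ n) v) (norm_nonneg _)).trans ?_
      rw [← mul_assoc]
      exact mul_le_mul_of_nonneg_right hM1 (norm_nonneg _)) (fun n v => by
      change ‖v‖ ≤ M * ‖e ((A (l ^ n) : V →L[ℝ] V) v)‖
      have h1 : ‖v‖ ≤ |C| * ‖(A (l ^ n) : V →L[ℝ] V) v‖ := by
        have h2 := hbd (l ^ n)⁻¹ ((A (l ^ n) : V →L[ℝ] V) v)
        rwa [hinv] at h2
      have h3 : ‖(A (l ^ n) : V →L[ℝ] V) v‖ ≤
          ‖(e.symm : EuclideanSpace ℝ (Fin (Module.finrank ℝ V)) →L[ℝ] V)‖ *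
            ‖e ((A (l ^ n) : V →L[ℝ] V) v)‖ := by
        have h4 := (e.symm : EuclideanSpace ℝ (Fin (Module.finrank ℝ V)) →L[ℝ] V).le_opNorm
          (e ((A (l ^ n) : V →L[ℝ] V) v))
        change ‖e.symm (e ((A (l ^ n) : V →L[ℝ] V) v))‖ ≤ _ at h4
        rwa [e.symm_apply_apply] at h4
      refine h1.trans ((mul_le_mul_of_nonneg_left h3 (abs_nonneg C)).trans ?_)
      rw [← mul_assoc]
      exact mul_le_mul_of_nonneg_right hM2 (norm_nonneg _))
  have hpos : ∀ v, v ≠ 0 → 0 < β v v := by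
    intro v hv
    have h1 := b5 v
    have h2 : 0 < ‖v‖ ^ 2 := by
      have := norm_pos_iff.2 hv
      positivity
    by_contra h3
    push Not at h3
    nlinarith [sq_nonneg M]
  obtain ⟨c1, c2⟩ := hs2 β b1 hpos b2 b3 _ b4
  set X := (Module.finrank ℝ V : ℝ) - LinearMap.trace ℝ V ((A l : V →L[ℝ] V) : V →ₗ[ℝ] V) with hX
  have hK : 0 ≤ M ^ 2 * M ^ 2 * 2 * X := by positivity
  have hfin : ‖(A l : V →L[ℝ] V) - 1‖ ≤ √(M ^ 2 * M ^ 2 * 2 * X) := by
    refine ContinuousLinearMap.opNorm_le_bound _ (Real.sqrt_nonneg _) fun v => ?_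
    have h1 : ‖(A l : V →L[ℝ] V) v - v‖ ^ 2 ≤ M ^ 2 * M ^ 2 * 2 * X * ‖v‖ ^ 2 := by
      have h2 := b5 ((A l : V →L[ℝ] V) v - v)
      have h3 : β ((A l : V →L[ℝ] V) v - v) ((A l : V →L[ℝ] V) v - v) ≤ β v v * (2 * X) := c2 v
      have h4 := b6 v
      calc ‖(A l : V →L[ℝ] V) v - v‖ ^ 2 ≤ M ^ 2 * (β v v * (2 * X)) :=
            h2.trans (mul_le_mul_of_nonneg_left h3 (sq_nonneg M))
        _ ≤ M ^ 2 * ((M ^ 2 * ‖v‖ ^ 2) * (2 * X)) := by gcongr
        _ = _ := by ring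
    change ‖(A l : V →L[ℝ] V) v - v‖ ≤ _
    rw [← Real.sqrt_sq (norm_nonneg v), ← Real.sqrt_mul hK]
    exact Real.le_sqrt_of_sq_le h1
  calc ‖(A l : V →L[ℝ] V) - 1‖ ^ 2 ≤ √(M ^ 2 * M ^ 2 * 2 * X) ^ 2 := by gcongr
    _ = _ := Real.sq_sqrt hK

end Pool.Agent.N499.RO.TR
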